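import Pool.Agent.H36.RP.Targets

/-!
# Approximation of functions of the past by continuous local functions
-/

set_option autoImplicit false

open MeasureTheory ProbabilityTheory Filter Topology Finset

namespace Pool.Agent.H99.RP

open Pool.Agent.H36.RP
open Pool.Agent.H89.MT (I1 X z1)

/-- All the coordinates after `q` are replaced by `0`. -/
noncomputable def cut (q : ℤ) (x : X) : X := fun k => if k ≤ q then x k else z1

/-- All the coordinates outside `[-H, H]` are replaced by `0`. -/
noncomputable def win (H : ℕ) (x : X) : X := fun k => if |k| ≤ (H : ℤ) then x k else z1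

theorem cut_cut (q : ℤ) (x : X) : cut q (cut q x) = cut q x := by
  funext k
  simp only [cut]
  split_ifs <;> rfl

theorem cut_cont (q : ℤ) : Continuous (cut q) := by
  refine continuous_pi fun k => ?_
  by_cases h : k ≤ q
  · simpa only [cut, h, if_true] using continuous_apply k
  · simpa only [cut, h, if_false] using continuous_const

theorem win_cont (H : ℕ) : Continuous (win H) := by
  refine continuous_pi fun k => ?_
  by_cases h : |k| ≤ (H : ℤ)
  · simpa only [win, h, if_true] using continuous_apply k
  · simpa only [win, h, if_false] using continuous_const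

theorem past_le_comap (q : ℤ) :
    past q ≤ MeasurableSpace.comap (cut q) (inferInstance : MeasurableSpace X) := by
  refine iSup_le fun k => iSup_le fun hk => ?_
  have h : (fun x : X => x k) = (fun x : X => x k) ∘ cut q := by
    funext x
    simp only [Function.comp_apply, cut, hk, if_true]
  rw [h, ← MeasurableSpace.comap_comp]
  exact MeasurableSpace.comap_mono (measurable_pi_apply k).comap_le

theorem coord_meas (q k : ℤ) (hk : k ≤ q) : Measurable[past q] (fun x : X => x k) := by
  rw [measurable_iff_comap_le]
  exact le_iSup_of_le k (le_iSup_of_le hk le_rfl)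

theorem eq_cut (q : ℤ) (g : X → ℝ) (hg : Measurable[past q] g) (x : X) : g x = g (cut q x) := by
  have h : Measurable[MeasurableSpace.comap (cut q) (inferInstance : MeasurableSpace X)] g :=
    fun s hs => past_le_comap q _ (hg hs)
  exact h.factorsThrough (cut_cut q x).symm

theorem win_tendsto (x : X) : Tendsto (fun H : ℕ => win H x) atTop (𝓝 x) := by
  rw [tendsto_pi_nhds]
  intro k
  refine tendsto_const_nhds.congr' ?_
  filter_upwards [eventually_ge_atTop k.natAbs] with H hH
  have h : |k| ≤ (H : ℤ) := by
    rw [Int.abs_eq_natAbs]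
    exact_mod_cast hH
  simp only [win, h, if_true]

theorem cw_meas (q : ℤ) (H : ℕ) : Measurable[past q] (fun x : X => cut q (win H x)) := by
  refine @measurable_pi_lambda X ℤ (fun _ => I1) (past q) _ _ fun k => ?_
  by_cases h : k ≤ q
  · by_cases h' : |k| ≤ (H : ℤ)
    · simpa only [cut, win, h, h', if_true] using coord_meas q k h
    · simpa only [cut, win, h, h', if_true, if_false] using
        (@measurable_const I1 X _ (past q) z1)
  · simpa only [cut, h, if_false] using (@measurable_const I1 X _ (past q) z1)

theorem pf_APX : T_APX := by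
  intro κ _ q g C hg hC ε hε
  have hgm : Measurable g := fun s hs => past_le q _ (hg hs)
  have hcm : Measurable (cut q) := (cut_cont q).measurable
  have hprob : IsProbabilityMeasure (κ.map (cut q)) := Measure.isProbabilityMeasure_map hcm.aemeasurable
  have hmem : MemLp g (ENNReal.ofReal 2) (κ.map (cut q)) :=
    MemLp.of_bound hgm.aestronglyMeasurable C (Eventually.of_forall fun x => by
      rw [Real.norm_eq_abs]; exact hC x)
  obtain ⟨φ₀, hφ₀, hφm⟩ := hmem.exists_boundedContinuous_integral_rpow_sub_le (by norm_num)
    (show 0 < ε / 2 by linarith)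
  -- the integral for the function before the localization
  have h1 : ∫ x, (g x - φ₀ (cut q x)) ^ 2 ∂κ ≤ ε / 2 := by
    have h2 : ∫ x, (g x - φ₀ (cut q x)) ^ 2 ∂κ = ∫ y, (g y - φ₀ y) ^ 2 ∂(κ.map (cut q)) := by
      rw [integral_map hcm.aemeasurable]
      · refine integral_congr_ae (Eventually.of_forall fun x => ?_)
        simp only
        rw [eq_cut q g hg x]
      · exact ((hgm.sub φ₀.continuous.measurable).pow_const 2).aestronglyMeasurable
    rw [h2]
    have h3 : ∀ y : X, ‖g y - φ₀ y‖ ^ (2 : ℝ) = (g y - φ₀ y) ^ 2 := fun y => by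
      rw [Real.rpow_two, Real.norm_eq_abs, sq_abs]
    simpa only [h3] using hφ₀
  -- localization
  have h5 : Tendsto (fun H : ℕ => ∫ x, (g x - φ₀ (cut q (win H x))) ^ 2 ∂κ) atTop
      (𝓝 (∫ x, (g x - φ₀ (cut q x)) ^ 2 ∂κ)) := by
    refine tendsto_integral_of_dominated_convergence (fun _ => (C + ‖φ₀‖) ^ 2) (fun H => ?_)
      (integrable_const _) (fun H => Eventually.of_forall fun x => ?_)
      (Eventually.of_forall fun x => ?_)
    · exact ((hgm.sub (φ₀.continuous.comp ((cut_cont q).comp (win_cont H))).measurable).pow_const
        2).aestronglyMeasurable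
    · rw [Real.norm_eq_abs, abs_pow]
      refine pow_le_pow_left₀ (abs_nonneg _) ?_ 2
      refine (abs_sub _ _).trans (add_le_add (hC x) ?_)
      exact φ₀.norm_coe_le_norm _
    · exact (tendsto_const_nhds.sub ((φ₀.continuous.tendsto _).comp
        (((cut_cont q).tendsto x).comp (win_tendsto x)))).pow 2
  obtain ⟨H, hH⟩ := (h5.eventually (gt_mem_nhds (show
    ∫ x, (g x - φ₀ (cut q x)) ^ 2 ∂κ < ε by linarith))).exists
  refine ⟨fun x => φ₀ (cut q (win H x)), H, φ₀.continuous.comp ((cut_cont q).comp (win_cont H)),
    φ₀.continuous.measurable.comp (cw_meas q H), fun x x' hx => ?_, hH.le⟩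
  have : win H x = win H x' := by
    funext k
    simp only [win]
    split_ifs with h
    · exact hx k h
    · rfl
  simp only [this]

end Pool.Agent.H99.RP
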